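import Pool.Agent.Strip051.LB.ChB03V1_pp_123.Defs

/-! # LINE tight chart ChB03V1_pp_123: boxes, part 1 -/

namespace Pool.Agent.Strip051.LB.ChB03V1_pp_123

open Pool.Agent.Strip051.Box Pool.Agent.Strip051.Box2

set_option maxRecDepth 100000

theorem c0 : chk f 60 (L2 (L2 b0)) = true := by decide +kernel

theorem c1 : chk f 60 (L1 (R2 (L2 b0))) = true := by decide +kernel

theorem c2 : chk f 60 (L2 (R1 (R2 (L2 b0)))) = true := by decide +kernel

theorem c3 : chk f 60 (L2 (L1 (L2 (L1 (R2 (R1 (R2 (L2 b0)))))))) = true := by decide +kernel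

theorem c4 : chk f 60 (L1 (L1 (R2 (L1 (L2 (L1 (R2 (R1 (R2 (L2 b0)))))))))) = true := by decide +kernel

theorem c5 : chk f 60 (R1 (L1 (R2 (L1 (L2 (L1 (R2 (R1 (R2 (L2 b0)))))))))) = true := by decide +kernel

theorem c6 : chk f 60 (R1 (R2 (L1 (L2 (L1 (R2 (R1 (R2 (L2 b0))))))))) = true := by decide +kernel

theorem c7 : chk f 60 (R1 (L2 (L1 (R2 (R1 (R2 (L2 b0))))))) = true := by decide +kernel

theorem c8 : chk f 60 (R2 (L1 (R2 (R1 (R2 (L2 b0)))))) = true := by decide +kernel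

theorem c9 : chk f 60 (R1 (R2 (R1 (R2 (L2 b0))))) = true := by decide +kernel

theorem c10 : chk f 60 (R2 b0) = true := by decide +kernel

end Pool.Agent.Strip051.LB.ChB03V1_pp_123
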