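import Pool.Agent.Strip051.Box.C2
import Pool.Agent.Strip051.Box.S30
import Pool.Agent.Strip051.LB.Fc.F2

/-! # LINE tight chart ChB03V1_pp_123 -/

namespace Pool.Agent.Strip051.LB.ChB03V1_pp_123

open Pool.Agent.Strip051.Box Pool.Agent.Strip051.Box2

open Pool.Agent.Strip051.LB.Fc Pool.Agent.Strip051.LB.Fc.F2 Pool.Agent.Strip051.LB.Fn Pool.Agent.Strip051.LB.Fn.F2

/-- coordinates of a point of the box -/
def In (b : Bx) (E : Pt) (x1 x2 : ℝ) : Prop :=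
  (S : ℝ) * x1 = ((b.p1 : ℝ) - b.n1) + b.q1 * E.e1 ∧ (S : ℝ) * x2 = ((b.p2 : ℝ) - b.n2) + b.q2 * E.e2

variable {b : Bx} {E : Pt} {x1 x2 : ℝ}

def t0 (b : Bx) : TM := X1 b
noncomputable def v0 (x1 _x2 : ℝ) : ℝ := x1
theorem h0 (h : In b E x1 x2) : Enc S E (t0 b) (v0 x1 x2) := enc_X1 h.1

def t1 (b : Bx) : TM := X2 b
noncomputable def v1 (_x1 x2 : ℝ) : ℝ := x2
theorem h1 (h : In b E x1 x2) : Enc S E (t1 b) (v1 x1 x2) := enc_X2 h.2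

def t2 (_b : Bx) : TM := tconst 1859775393 0 1
noncomputable def v2 (_x1 _x2 : ℝ) : ℝ := Real.sqrt ((3 : ℕ) : ℝ)
theorem h2 (_h : In b E x1 x2) : Enc S E (t2 b) (v2 x1 x2) := enc_sqrtn E (by decide) (by decide)

def t3 (b : Bx) : TM := tscale 1 2 (t2 b)
noncomputable def v3 (x1 x2 : ℝ) : ℝ := ((1 : ℕ) : ℝ) / ((2 : ℕ) : ℝ) * v2 x1 x2
theorem h3 (h : In b E x1 x2) : Enc S E (t3 b) (v3 x1 x2) := enc_scale 1 (by norm_num) (h2 h)

def t4 (b : Bx) : TM := tsq S (t0 b)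
noncomputable def v4 (x1 x2 : ℝ) : ℝ := (v0 x1 x2) ^ 2
theorem h4 (h : In b E x1 x2) : Enc S E (t4 b) (v4 x1 x2) := enc_sq hS (h0 h)

def t5 (_b : Bx) : TM := tconst (Nat.mul 1 S) 0 0
noncomputable def v5 (_x1 _x2 : ℝ) : ℝ := ((1 : ℕ) : ℝ)
theorem h5 (_h : In b E x1 x2) : Enc S E (t5 b) (v5 x1 x2) := enc_nc E 1

def t6 (b : Bx) : TM := tsub (t5 b) (t4 b)
noncomputable def v6 (x1 x2 : ℝ) : ℝ := v5 x1 x2 - v4 x1 x2
theorem h6 (h : In b E x1 x2) : Enc S E (t6 b) (v6 x1 x2) := enc_sub (h5 h) (h4 h)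

def t7 (b : Bx) : TM := tsqrt S (t6 b)
noncomputable def v7 (x1 x2 : ℝ) : ℝ := Real.sqrt (v6 x1 x2)
theorem h7 (h : In b E x1 x2) : Enc S E (t7 b) (v7 x1 x2) := enc_sqrt hS (h6 h)

def t9 (_b : Bx) : TM := tconst (Nat.div (Nat.mul 1 S) 2) 0 1
noncomputable def v9 (_x1 _x2 : ℝ) : ℝ := ((1 : ℕ) : ℝ) / ((2 : ℕ) : ℝ)
theorem h9 (_h : In b E x1 x2) : Enc S E (t9 b) (v9 x1 x2) := enc_rat E 1 (by norm_num)

def t10 (b : Bx) : TM := tscale 1 2 (t7 b)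
noncomputable def v10 (x1 x2 : ℝ) : ℝ := ((1 : ℕ) : ℝ) / ((2 : ℕ) : ℝ) * v7 x1 x2
theorem h10 (h : In b E x1 x2) : Enc S E (t10 b) (v10 x1 x2) := enc_scale 1 (by norm_num) (h7 h)

def t11 (b : Bx) : TM := tmul S (t0 b) (t3 b)
noncomputable def v11 (x1 x2 : ℝ) : ℝ := v0 x1 x2 * v3 x1 x2
theorem h11 (h : In b E x1 x2) : Enc S E (t11 b) (v11 x1 x2) := enc_mul hS (h0 h) (h3 h)

def t13 (b : Bx) : TM := tscale 1 2 (t0 b)
noncomputable def v13 (x1 x2 : ℝ) : ℝ := ((1 : ℕ) : ℝ) / ((2 : ℕ) : ℝ) * v0 x1 x2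
theorem h13 (h : In b E x1 x2) : Enc S E (t13 b) (v13 x1 x2) := enc_scale 1 (by norm_num) (h0 h)

def t14 (b : Bx) : TM := tmul S (t7 b) (t3 b)
noncomputable def v14 (x1 x2 : ℝ) : ℝ := v7 x1 x2 * v3 x1 x2
theorem h14 (h : In b E x1 x2) : Enc S E (t14 b) (v14 x1 x2) := enc_mul hS (h7 h) (h3 h)

def t16 (b : Bx) : TM := tsub (t14 b) (t13 b)
noncomputable def v16 (x1 x2 : ℝ) : ℝ := v14 x1 x2 - v13 x1 x2
theorem h16 (h : In b E x1 x2) : Enc S E (t16 b) (v16 x1 x2) := enc_sub (h14 h) (h13 h)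

def t17 (b : Bx) : TM := tadd (t11 b) (t10 b)
noncomputable def v17 (x1 x2 : ℝ) : ℝ := v11 x1 x2 + v10 x1 x2
theorem h17 (h : In b E x1 x2) : Enc S E (t17 b) (v17 x1 x2) := enc_add (h11 h) (h10 h)

def t18 (b : Bx) : TM := tmul S (t16 b) (t2 b)
noncomputable def v18 (x1 x2 : ℝ) : ℝ := v16 x1 x2 * v2 x1 x2
theorem h18 (h : In b E x1 x2) : Enc S E (t18 b) (v18 x1 x2) := enc_mul hS (h16 h) (h2 h)

def t19 (b : Bx) : TM := tmul S (t17 b) (t2 b)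
noncomputable def v19 (x1 x2 : ℝ) : ℝ := v17 x1 x2 * v2 x1 x2
theorem h19 (h : In b E x1 x2) : Enc S E (t19 b) (v19 x1 x2) := enc_mul hS (h17 h) (h2 h)

def t20 (b : Bx) : TM := tsub (t1 b) (t18 b)
noncomputable def v20 (x1 x2 : ℝ) : ℝ := v1 x1 x2 - v18 x1 x2
theorem h20 (h : In b E x1 x2) : Enc S E (t20 b) (v20 x1 x2) := enc_sub (h1 h) (h18 h)

def t21 (b : Bx) : TM := tsq S (t1 b)
noncomputable def v21 (x1 x2 : ℝ) : ℝ := (v1 x1 x2) ^ 2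
theorem h21 (h : In b E x1 x2) : Enc S E (t21 b) (v21 x1 x2) := enc_sq hS (h1 h)

def t22 (_b : Bx) : TM := tconst (Nat.mul 3 S) 0 0
noncomputable def v22 (_x1 _x2 : ℝ) : ℝ := ((3 : ℕ) : ℝ)
theorem h22 (_h : In b E x1 x2) : Enc S E (t22 b) (v22 x1 x2) := enc_nc E 3

def t23 (b : Bx) : TM := tsub (t22 b) (t21 b)
noncomputable def v23 (x1 x2 : ℝ) : ℝ := v22 x1 x2 - v21 x1 x2
theorem h23 (h : In b E x1 x2) : Enc S E (t23 b) (v23 x1 x2) := enc_sub (h22 h) (h21 h)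

def t24 (b : Bx) : TM := tsqrt S (t23 b)
noncomputable def v24 (x1 x2 : ℝ) : ℝ := Real.sqrt (v23 x1 x2)
theorem h24 (h : In b E x1 x2) : Enc S E (t24 b) (v24 x1 x2) := enc_sqrt hS (h23 h)

def t25 (b : Bx) : TM := tsub (t1 b) (t7 b)
noncomputable def v25 (x1 x2 : ℝ) : ℝ := v1 x1 x2 - v7 x1 x2
theorem h25 (h : In b E x1 x2) : Enc S E (t25 b) (v25 x1 x2) := enc_sub (h1 h) (h7 h)

def t26 (b : Bx) : TM := tsub (t24 b) (t0 b)
noncomputable def v26 (x1 x2 : ℝ) : ℝ := v24 x1 x2 - v0 x1 x2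
theorem h26 (h : In b E x1 x2) : Enc S E (t26 b) (v26 x1 x2) := enc_sub (h24 h) (h0 h)

def t27 (b : Bx) : TM := tsub (t18 b) (t1 b)
noncomputable def v27 (x1 x2 : ℝ) : ℝ := v18 x1 x2 - v1 x1 x2
theorem h27 (h : In b E x1 x2) : Enc S E (t27 b) (v27 x1 x2) := enc_sub (h18 h) (h1 h)

def t28 (b : Bx) : TM := tnat 2 (t7 b)
noncomputable def v28 (x1 x2 : ℝ) : ℝ := ((2 : ℕ) : ℝ) * v7 x1 x2
theorem h28 (h : In b E x1 x2) : Enc S E (t28 b) (v28 x1 x2) := enc_nat 2 (h7 h)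

def t29 (b : Bx) : TM := tadd (t5 b) (t28 b)
noncomputable def v29 (x1 x2 : ℝ) : ℝ := v5 x1 x2 + v28 x1 x2
theorem h29 (h : In b E x1 x2) : Enc S E (t29 b) (v29 x1 x2) := enc_add (h5 h) (h28 h)

def t30 (b : Bx) : TM := tmul S (t2 b) (t0 b)
noncomputable def v30 (x1 x2 : ℝ) : ℝ := v2 x1 x2 * v0 x1 x2
theorem h30 (h : In b E x1 x2) : Enc S E (t30 b) (v30 x1 x2) := enc_mul hS (h2 h) (h0 h)

def t31 (b : Bx) : TM := tsub (t30 b) (t7 b)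
noncomputable def v31 (x1 x2 : ℝ) : ℝ := v30 x1 x2 - v7 x1 x2
theorem h31 (h : In b E x1 x2) : Enc S E (t31 b) (v31 x1 x2) := enc_sub (h30 h) (h7 h)

def t32 (b : Bx) : TM := tmul S (t29 b) (t31 b)
noncomputable def v32 (x1 x2 : ℝ) : ℝ := v29 x1 x2 * v31 x1 x2
theorem h32 (h : In b E x1 x2) : Enc S E (t32 b) (v32 x1 x2) := enc_mul hS (h29 h) (h31 h)

def t33 (b : Bx) : TM := tadd (t5 b) (t30 b)
noncomputable def v33 (x1 x2 : ℝ) : ℝ := v5 x1 x2 + v30 x1 x2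
theorem h33 (h : In b E x1 x2) : Enc S E (t33 b) (v33 x1 x2) := enc_add (h5 h) (h30 h)

def t34 (b : Bx) : TM := tsub (t33 b) (t7 b)
noncomputable def v34 (x1 x2 : ℝ) : ℝ := v33 x1 x2 - v7 x1 x2
theorem h34 (h : In b E x1 x2) : Enc S E (t34 b) (v34 x1 x2) := enc_sub (h33 h) (h7 h)

def t35 (b : Bx) : TM := tnat 2 (t34 b)
noncomputable def v35 (x1 x2 : ℝ) : ℝ := ((2 : ℕ) : ℝ) * v34 x1 x2
theorem h35 (h : In b E x1 x2) : Enc S E (t35 b) (v35 x1 x2) := enc_nat 2 (h34 h)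

def t36 (b : Bx) : TM := tinv S (t35 b)
noncomputable def v36 (x1 x2 : ℝ) : ℝ := (v35 x1 x2)⁻¹
theorem h36 (h : In b E x1 x2) : Enc S E (t36 b) (v36 x1 x2) := enc_inv hS (h35 h)

def t37 (b : Bx) : TM := tmul S (t32 b) (t36 b)
noncomputable def v37 (x1 x2 : ℝ) : ℝ := v32 x1 x2 * v36 x1 x2
theorem h37 (h : In b E x1 x2) : Enc S E (t37 b) (v37 x1 x2) := enc_mul hS (h32 h) (h36 h)

def t40 (b : Bx) : TM := tadd (t1 b) (t22 b)
noncomputable def v40 (x1 x2 : ℝ) : ℝ := v1 x1 x2 + v22 x1 x2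
theorem h40 (h : In b E x1 x2) : Enc S E (t40 b) (v40 x1 x2) := enc_add (h1 h) (h22 h)

def t41 (b : Bx) : TM := tmul S (t2 b) (t24 b)
noncomputable def v41 (x1 x2 : ℝ) : ℝ := v2 x1 x2 * v24 x1 x2
theorem h41 (h : In b E x1 x2) : Enc S E (t41 b) (v41 x1 x2) := enc_mul hS (h2 h) (h24 h)

def t42 (b : Bx) : TM := tsub (t40 b) (t41 b)
noncomputable def v42 (x1 x2 : ℝ) : ℝ := v40 x1 x2 - v41 x1 x2
theorem h42 (h : In b E x1 x2) : Enc S E (t42 b) (v42 x1 x2) := enc_sub (h40 h) (h41 h)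

def t44 (b : Bx) : TM := tsub (t24 b) (t3 b)
noncomputable def v44 (x1 x2 : ℝ) : ℝ := v24 x1 x2 - v3 x1 x2
theorem h44 (h : In b E x1 x2) : Enc S E (t44 b) (v44 x1 x2) := enc_sub (h24 h) (h3 h)

def t45 (b : Bx) : TM := tnat 4 (t44 b)
noncomputable def v45 (x1 x2 : ℝ) : ℝ := ((4 : ℕ) : ℝ) * v44 x1 x2
theorem h45 (h : In b E x1 x2) : Enc S E (t45 b) (v45 x1 x2) := enc_nat 4 (h44 h)

def t46 (b : Bx) : TM := tinv S (t45 b)
noncomputable def v46 (x1 x2 : ℝ) : ℝ := (v45 x1 x2)⁻¹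
theorem h46 (h : In b E x1 x2) : Enc S E (t46 b) (v46 x1 x2) := enc_inv hS (h45 h)

def t49 (b : Bx) : TM := tsq S (t25 b)
noncomputable def v49 (x1 x2 : ℝ) : ℝ := (v25 x1 x2) ^ 2
theorem h49 (h : In b E x1 x2) : Enc S E (t49 b) (v49 x1 x2) := enc_sq hS (h25 h)

def t50 (b : Bx) : TM := tsq S (t26 b)
noncomputable def v50 (x1 x2 : ℝ) : ℝ := (v26 x1 x2) ^ 2
theorem h50 (h : In b E x1 x2) : Enc S E (t50 b) (v50 x1 x2) := enc_sq hS (h26 h)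

def t51 (b : Bx) : TM := tadd (t49 b) (t50 b)
noncomputable def v51 (x1 x2 : ℝ) : ℝ := v49 x1 x2 + v50 x1 x2
theorem h51 (h : In b E x1 x2) : Enc S E (t51 b) (v51 x1 x2) := enc_add (h49 h) (h50 h)

def t53 (b : Bx) : TM := tneg (t5 b)
noncomputable def v53 (x1 x2 : ℝ) : ℝ := -(v5 x1 x2)
theorem h53 (h : In b E x1 x2) : Enc S E (t53 b) (v53 x1 x2) := enc_neg (h5 h)

def t55 (b : Bx) : TM := tsub (t18 b) (t7 b)
noncomputable def v55 (x1 x2 : ℝ) : ℝ := v18 x1 x2 - v7 x1 x2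
theorem h55 (h : In b E x1 x2) : Enc S E (t55 b) (v55 x1 x2) := enc_sub (h18 h) (h7 h)

def t57 (b : Bx) : TM := tadd (t25 b) (t55 b)
noncomputable def v57 (x1 x2 : ℝ) : ℝ := v25 x1 x2 + v55 x1 x2
theorem h57 (h : In b E x1 x2) : Enc S E (t57 b) (v57 x1 x2) := enc_add (h25 h) (h55 h)

def t60 (b : Bx) : TM := tadd (t1 b) (t18 b)
noncomputable def v60 (x1 x2 : ℝ) : ℝ := v1 x1 x2 + v18 x1 x2
theorem h60 (h : In b E x1 x2) : Enc S E (t60 b) (v60 x1 x2) := enc_add (h1 h) (h18 h)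

def t63 (b : Bx) : TM := tadd (t24 b) (t19 b)
noncomputable def v63 (x1 x2 : ℝ) : ℝ := v24 x1 x2 + v19 x1 x2
theorem h63 (h : In b E x1 x2) : Enc S E (t63 b) (v63 x1 x2) := enc_add (h24 h) (h19 h)

def t64 (b : Bx) : TM := tinv S (t63 b)
noncomputable def v64 (x1 x2 : ℝ) : ℝ := (v63 x1 x2)⁻¹
theorem h64 (h : In b E x1 x2) : Enc S E (t64 b) (v64 x1 x2) := enc_inv hS (h63 h)

def t65 (b : Bx) : TM := tmul S (t60 b) (t64 b)
noncomputable def v65 (x1 x2 : ℝ) : ℝ := v60 x1 x2 * v64 x1 x2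
theorem h65 (h : In b E x1 x2) : Enc S E (t65 b) (v65 x1 x2) := enc_mul hS (h60 h) (h64 h)

def t66 (b : Bx) : TM := tsub (t19 b) (t0 b)
noncomputable def v66 (x1 x2 : ℝ) : ℝ := v19 x1 x2 - v0 x1 x2
theorem h66 (h : In b E x1 x2) : Enc S E (t66 b) (v66 x1 x2) := enc_sub (h19 h) (h0 h)

def t68 (b : Bx) : TM := tadd (t26 b) (t66 b)
noncomputable def v68 (x1 x2 : ℝ) : ℝ := v26 x1 x2 + v66 x1 x2
theorem h68 (h : In b E x1 x2) : Enc S E (t68 b) (v68 x1 x2) := enc_add (h26 h) (h66 h)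

def t69 (b : Bx) : TM := tmul S (t65 b) (t68 b)
noncomputable def v69 (x1 x2 : ℝ) : ℝ := v65 x1 x2 * v68 x1 x2
theorem h69 (h : In b E x1 x2) : Enc S E (t69 b) (v69 x1 x2) := enc_mul hS (h65 h) (h68 h)

def t71 (b : Bx) : TM := tsub (t69 b) (t57 b)
noncomputable def v71 (x1 x2 : ℝ) : ℝ := v69 x1 x2 - v57 x1 x2
theorem h71 (h : In b E x1 x2) : Enc S E (t71 b) (v71 x1 x2) := enc_sub (h69 h) (h57 h)

def t73 (b : Bx) : TM := kx2_t (t25 b) (t26 b)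
noncomputable def v73 (x1 x2 : ℝ) : ℝ := kx2_v (v25 x1 x2) (v26 x1 x2)
theorem h73 (h : In b E x1 x2) : Enc S E (t73 b) (v73 x1 x2) := kx2_enc (h25 h) (h26 h)

def t74 (b : Bx) : TM := f2p_t (t26 b)
noncomputable def v74 (x1 x2 : ℝ) : ℝ := f2p_v (v26 x1 x2)
theorem h74 (h : In b E x1 x2) : Enc S E (t74 b) (v74 x1 x2) := f2p_enc (h26 h)

def t75 (b : Bx) : TM := tsub (t74 b) (t25 b)
noncomputable def v75 (x1 x2 : ℝ) : ℝ := v74 x1 x2 - v25 x1 x2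
theorem h75 (h : In b E x1 x2) : Enc S E (t75 b) (v75 x1 x2) := enc_sub (h74 h) (h25 h)

def t76 (b : Bx) : TM := tadd (t74 b) (t25 b)
noncomputable def v76 (x1 x2 : ℝ) : ℝ := v74 x1 x2 + v25 x1 x2
theorem h76 (h : In b E x1 x2) : Enc S E (t76 b) (v76 x1 x2) := enc_add (h74 h) (h25 h)

def t79 (b : Bx) : TM := tmul S (t71 b) (t73 b)
noncomputable def v79 (x1 x2 : ℝ) : ℝ := v71 x1 x2 * v73 x1 x2
theorem h79 (h : In b E x1 x2) : Enc S E (t79 b) (v79 x1 x2) := enc_mul hS (h71 h) (h73 h)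

def t80 (b : Bx) : TM := tsub (t79 b) (t5 b)
noncomputable def v80 (x1 x2 : ℝ) : ℝ := v79 x1 x2 - v5 x1 x2
theorem h80 (h : In b E x1 x2) : Enc S E (t80 b) (v80 x1 x2) := enc_sub (h79 h) (h5 h)

def t81 (b : Bx) : TM := tmul S (t7 b) (t24 b)
noncomputable def v81 (x1 x2 : ℝ) : ℝ := v7 x1 x2 * v24 x1 x2
theorem h81 (h : In b E x1 x2) : Enc S E (t81 b) (v81 x1 x2) := enc_mul hS (h7 h) (h24 h)

def t82 (b : Bx) : TM := tmul S (t1 b) (t0 b)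
noncomputable def v82 (x1 x2 : ℝ) : ℝ := v1 x1 x2 * v0 x1 x2
theorem h82 (h : In b E x1 x2) : Enc S E (t82 b) (v82 x1 x2) := enc_mul hS (h1 h) (h0 h)

def t83 (b : Bx) : TM := tsub (t81 b) (t82 b)
noncomputable def v83 (x1 x2 : ℝ) : ℝ := v81 x1 x2 - v82 x1 x2
theorem h83 (h : In b E x1 x2) : Enc S E (t83 b) (v83 x1 x2) := enc_sub (h81 h) (h82 h)

def t84 (b : Bx) : TM := tinv S (t2 b)
noncomputable def v84 (x1 x2 : ℝ) : ℝ := (v2 x1 x2)⁻¹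
theorem h84 (h : In b E x1 x2) : Enc S E (t84 b) (v84 x1 x2) := enc_inv hS (h2 h)

def t85 (b : Bx) : TM := tmul S (t83 b) (t84 b)
noncomputable def v85 (x1 x2 : ℝ) : ℝ := v83 x1 x2 * v84 x1 x2
theorem h85 (h : In b E x1 x2) : Enc S E (t85 b) (v85 x1 x2) := enc_mul hS (h83 h) (h84 h)

def t86 (b : Bx) : TM := tsub (t85 b) (t9 b)
noncomputable def v86 (x1 x2 : ℝ) : ℝ := v85 x1 x2 - v9 x1 x2
theorem h86 (h : In b E x1 x2) : Enc S E (t86 b) (v86 x1 x2) := enc_sub (h85 h) (h9 h)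

def t88 (b : Bx) : TM := tmul S (t7 b) (t65 b)
noncomputable def v88 (x1 x2 : ℝ) : ℝ := v7 x1 x2 * v65 x1 x2
theorem h88 (h : In b E x1 x2) : Enc S E (t88 b) (v88 x1 x2) := enc_mul hS (h7 h) (h65 h)

def t92 (b : Bx) : TM := tadd (t88 b) (t0 b)
noncomputable def v92 (x1 x2 : ℝ) : ℝ := v88 x1 x2 + v0 x1 x2
theorem h92 (h : In b E x1 x2) : Enc S E (t92 b) (v92 x1 x2) := enc_add (h88 h) (h0 h)

def t94 (b : Bx) : TM := tmul S (t92 b) (t84 b)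
noncomputable def v94 (x1 x2 : ℝ) : ℝ := v92 x1 x2 * v84 x1 x2
theorem h94 (h : In b E x1 x2) : Enc S E (t94 b) (v94 x1 x2) := enc_mul hS (h92 h) (h84 h)

def t96 (b : Bx) : TM := tsub (t0 b) (t3 b)
noncomputable def v96 (x1 x2 : ℝ) : ℝ := v0 x1 x2 - v3 x1 x2
theorem h96 (h : In b E x1 x2) : Enc S E (t96 b) (v96 x1 x2) := enc_sub (h0 h) (h3 h)

def t97 (b : Bx) : TM := tsub (t26 b) (t3 b)
noncomputable def v97 (x1 x2 : ℝ) : ℝ := v26 x1 x2 - v3 x1 x2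
theorem h97 (h : In b E x1 x2) : Enc S E (t97 b) (v97 x1 x2) := enc_sub (h26 h) (h3 h)

def t98 (b : Bx) : TM := tsub (t24 b) (t2 b)
noncomputable def v98 (x1 x2 : ℝ) : ℝ := v24 x1 x2 - v2 x1 x2
theorem h98 (h : In b E x1 x2) : Enc S E (t98 b) (v98 x1 x2) := enc_sub (h24 h) (h2 h)

def t99 (b : Bx) : TM := tmul S (t2 b) (t18 b)
noncomputable def v99 (x1 x2 : ℝ) : ℝ := v2 x1 x2 * v18 x1 x2
theorem h99 (h : In b E x1 x2) : Enc S E (t99 b) (v99 x1 x2) := enc_mul hS (h2 h) (h18 h)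

def t100 (b : Bx) : TM := tneg (t2 b)
noncomputable def v100 (x1 x2 : ℝ) : ℝ := -(v2 x1 x2)
theorem h100 (h : In b E x1 x2) : Enc S E (t100 b) (v100 x1 x2) := enc_neg (h2 h)

def t101 (b : Bx) : TM := tsub (t99 b) (t19 b)
noncomputable def v101 (x1 x2 : ℝ) : ℝ := v99 x1 x2 - v19 x1 x2
theorem h101 (h : In b E x1 x2) : Enc S E (t101 b) (v101 x1 x2) := enc_sub (h99 h) (h19 h)

def t102 (b : Bx) : TM := tsub (t100 b) (t65 b)
noncomputable def v102 (x1 x2 : ℝ) : ℝ := v100 x1 x2 - v65 x1 x2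
theorem h102 (h : In b E x1 x2) : Enc S E (t102 b) (v102 x1 x2) := enc_sub (h100 h) (h65 h)

def t103 (b : Bx) : TM := tadd (t18 b) (t22 b)
noncomputable def v103 (x1 x2 : ℝ) : ℝ := v18 x1 x2 + v22 x1 x2
theorem h103 (h : In b E x1 x2) : Enc S E (t103 b) (v103 x1 x2) := enc_add (h18 h) (h22 h)

def t104 (b : Bx) : TM := tmul S (t2 b) (t19 b)
noncomputable def v104 (x1 x2 : ℝ) : ℝ := v2 x1 x2 * v19 x1 x2
theorem h104 (h : In b E x1 x2) : Enc S E (t104 b) (v104 x1 x2) := enc_mul hS (h2 h) (h19 h)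

def t105 (b : Bx) : TM := tmul S (t2 b) (t65 b)
noncomputable def v105 (x1 x2 : ℝ) : ℝ := v2 x1 x2 * v65 x1 x2
theorem h105 (h : In b E x1 x2) : Enc S E (t105 b) (v105 x1 x2) := enc_mul hS (h2 h) (h65 h)

def t106 (b : Bx) : TM := tsub (t103 b) (t104 b)
noncomputable def v106 (x1 x2 : ℝ) : ℝ := v103 x1 x2 - v104 x1 x2
theorem h106 (h : In b E x1 x2) : Enc S E (t106 b) (v106 x1 x2) := enc_sub (h103 h) (h104 h)

def t107 (b : Bx) : TM := tsub (t53 b) (t105 b)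
noncomputable def v107 (x1 x2 : ℝ) : ℝ := v53 x1 x2 - v105 x1 x2
theorem h107 (h : In b E x1 x2) : Enc S E (t107 b) (v107 x1 x2) := enc_sub (h53 h) (h105 h)

def t108 (b : Bx) : TM := tmul S (t101 b) (t106 b)
noncomputable def v108 (x1 x2 : ℝ) : ℝ := v101 x1 x2 * v106 x1 x2
theorem h108 (h : In b E x1 x2) : Enc S E (t108 b) (v108 x1 x2) := enc_mul hS (h101 h) (h106 h)

def t109 (b : Bx) : TM := tmul S (t102 b) (t42 b)
noncomputable def v109 (x1 x2 : ℝ) : ℝ := v102 x1 x2 * v42 x1 x2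
theorem h109 (h : In b E x1 x2) : Enc S E (t109 b) (v109 x1 x2) := enc_mul hS (h102 h) (h42 h)

def t110 (b : Bx) : TM := tmul S (t101 b) (t107 b)
noncomputable def v110 (x1 x2 : ℝ) : ℝ := v101 x1 x2 * v107 x1 x2
theorem h110 (h : In b E x1 x2) : Enc S E (t110 b) (v110 x1 x2) := enc_mul hS (h101 h) (h107 h)

def t111 (b : Bx) : TM := tadd (t109 b) (t110 b)
noncomputable def v111 (x1 x2 : ℝ) : ℝ := v109 x1 x2 + v110 x1 x2
theorem h111 (h : In b E x1 x2) : Enc S E (t111 b) (v111 x1 x2) := enc_add (h109 h) (h110 h)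

def t112 (b : Bx) : TM := tsub (t19 b) (t3 b)
noncomputable def v112 (x1 x2 : ℝ) : ℝ := v19 x1 x2 - v3 x1 x2
theorem h112 (h : In b E x1 x2) : Enc S E (t112 b) (v112 x1 x2) := enc_sub (h19 h) (h3 h)

def t113 (b : Bx) : TM := tnat 4 (t112 b)
noncomputable def v113 (x1 x2 : ℝ) : ℝ := ((4 : ℕ) : ℝ) * v112 x1 x2
theorem h113 (h : In b E x1 x2) : Enc S E (t113 b) (v113 x1 x2) := enc_nat 4 (h112 h)

def t114 (b : Bx) : TM := tnat 4 (t65 b)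
noncomputable def v114 (x1 x2 : ℝ) : ℝ := ((4 : ℕ) : ℝ) * v65 x1 x2
theorem h114 (h : In b E x1 x2) : Enc S E (t114 b) (v114 x1 x2) := enc_nat 4 (h65 h)

def t115 (b : Bx) : TM := tinv S (t113 b)
noncomputable def v115 (x1 x2 : ℝ) : ℝ := (v113 x1 x2)⁻¹
theorem h115 (h : In b E x1 x2) : Enc S E (t115 b) (v115 x1 x2) := enc_inv hS (h113 h)

def t116 (b : Bx) : TM := tmul S (t46 b) (t115 b)
noncomputable def v116 (x1 x2 : ℝ) : ℝ := v46 x1 x2 * v115 x1 x2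
theorem h116 (h : In b E x1 x2) : Enc S E (t116 b) (v116 x1 x2) := enc_mul hS (h46 h) (h115 h)

def t117 (b : Bx) : TM := tmul S (t114 b) (t116 b)
noncomputable def v117 (x1 x2 : ℝ) : ℝ := v114 x1 x2 * v116 x1 x2
theorem h117 (h : In b E x1 x2) : Enc S E (t117 b) (v117 x1 x2) := enc_mul hS (h114 h) (h116 h)

def t120 (b : Bx) : TM := tmul S (t111 b) (t46 b)
noncomputable def v120 (x1 x2 : ℝ) : ℝ := v111 x1 x2 * v46 x1 x2
theorem h120 (h : In b E x1 x2) : Enc S E (t120 b) (v120 x1 x2) := enc_mul hS (h111 h) (h46 h)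

def t121 (b : Bx) : TM := tmul S (t108 b) (t117 b)
noncomputable def v121 (x1 x2 : ℝ) : ℝ := v108 x1 x2 * v117 x1 x2
theorem h121 (h : In b E x1 x2) : Enc S E (t121 b) (v121 x1 x2) := enc_mul hS (h108 h) (h117 h)

def t125 (b : Bx) : TM := tsub (t121 b) (t120 b)
noncomputable def v125 (x1 x2 : ℝ) : ℝ := v121 x1 x2 - v120 x1 x2
theorem h125 (h : In b E x1 x2) : Enc S E (t125 b) (v125 x1 x2) := enc_sub (h121 h) (h120 h)

def t126 (b : Bx) : TM := tsub (t125 b) (t80 b)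
noncomputable def v126 (x1 x2 : ℝ) : ℝ := v125 x1 x2 - v80 x1 x2
theorem h126 (h : In b E x1 x2) : Enc S E (t126 b) (v126 x1 x2) := enc_sub (h125 h) (h80 h)

def t128 (b : Bx) : TM := tmul S (t96 b) (t125 b)
noncomputable def v128 (x1 x2 : ℝ) : ℝ := v96 x1 x2 * v125 x1 x2
theorem h128 (h : In b E x1 x2) : Enc S E (t128 b) (v128 x1 x2) := enc_mul hS (h96 h) (h125 h)

def t129 (b : Bx) : TM := tmul S (t65 b) (t37 b)
noncomputable def v129 (x1 x2 : ℝ) : ℝ := v65 x1 x2 * v37 x1 x2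
theorem h129 (h : In b E x1 x2) : Enc S E (t129 b) (v129 x1 x2) := enc_mul hS (h65 h) (h37 h)

def t130 (b : Bx) : TM := tsub (t128 b) (t129 b)
noncomputable def v130 (x1 x2 : ℝ) : ℝ := v128 x1 x2 - v129 x1 x2
theorem h130 (h : In b E x1 x2) : Enc S E (t130 b) (v130 x1 x2) := enc_sub (h128 h) (h129 h)

def t133 (b : Bx) : TM := tmul S (t98 b) (t126 b)
noncomputable def v133 (x1 x2 : ℝ) : ℝ := v98 x1 x2 * v126 x1 x2
theorem h133 (h : In b E x1 x2) : Enc S E (t133 b) (v133 x1 x2) := enc_mul hS (h98 h) (h126 h)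

def t134 (b : Bx) : TM := tsub (t130 b) (t133 b)
noncomputable def v134 (x1 x2 : ℝ) : ℝ := v130 x1 x2 - v133 x1 x2
theorem h134 (h : In b E x1 x2) : Enc S E (t134 b) (v134 x1 x2) := enc_sub (h130 h) (h133 h)

def t135 (b : Bx) : TM := tsub (t3 b) (t26 b)
noncomputable def v135 (x1 x2 : ℝ) : ℝ := v3 x1 x2 - v26 x1 x2
theorem h135 (h : In b E x1 x2) : Enc S E (t135 b) (v135 x1 x2) := enc_sub (h3 h) (h26 h)

def t137 (b : Bx) : TM := tsub (t2 b) (t24 b)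
noncomputable def v137 (x1 x2 : ℝ) : ℝ := v2 x1 x2 - v24 x1 x2
theorem h137 (h : In b E x1 x2) : Enc S E (t137 b) (v137 x1 x2) := enc_sub (h2 h) (h24 h)

def t138 (b : Bx) : TM := qn_t (t97 b) (t137 b) (t94 b) (t134 b) (t126 b)
noncomputable def v138 (x1 x2 : ℝ) : ℝ := qn_v (v97 x1 x2) (v137 x1 x2) (v94 x1 x2) (v134 x1 x2) (v126 x1 x2)
theorem h138 (h : In b E x1 x2) : Enc S E (t138 b) (v138 x1 x2) := qn_enc (h97 h) (h137 h) (h94 h) (h134 h) (h126 h)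

def t139 (b : Bx) : TM := tscale 1 4 (t2 b)
noncomputable def v139 (x1 x2 : ℝ) : ℝ := ((1 : ℕ) : ℝ) / ((4 : ℕ) : ℝ) * v2 x1 x2
theorem h139 (h : In b E x1 x2) : Enc S E (t139 b) (v139 x1 x2) := enc_scale 1 (by norm_num) (h2 h)

def t141 (b : Bx) : TM := tsub (t139 b) (t0 b)
noncomputable def v141 (x1 x2 : ℝ) : ℝ := v139 x1 x2 - v0 x1 x2
theorem h141 (h : In b E x1 x2) : Enc S E (t141 b) (v141 x1 x2) := enc_sub (h139 h) (h0 h)

def t142 (b : Bx) : TM := tscale 3 4 (t2 b)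
noncomputable def v142 (x1 x2 : ℝ) : ℝ := ((3 : ℕ) : ℝ) / ((4 : ℕ) : ℝ) * v2 x1 x2
theorem h142 (h : In b E x1 x2) : Enc S E (t142 b) (v142 x1 x2) := enc_scale 3 (by norm_num) (h2 h)

def t144 (b : Bx) : TM := tsub (t26 b) (t142 b)
noncomputable def v144 (x1 x2 : ℝ) : ℝ := v26 x1 x2 - v142 x1 x2
theorem h144 (h : In b E x1 x2) : Enc S E (t144 b) (v144 x1 x2) := enc_sub (h26 h) (h142 h)

def t146 (b : Bx) : TM := tsub (t142 b) (t24 b)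
noncomputable def v146 (x1 x2 : ℝ) : ℝ := v142 x1 x2 - v24 x1 x2
theorem h146 (h : In b E x1 x2) : Enc S E (t146 b) (v146 x1 x2) := enc_sub (h142 h) (h24 h)

def t147 (_b : Bx) : TM := tconst (Nat.div (Nat.mul 1 S) 16) 0 1
noncomputable def v147 (_x1 _x2 : ℝ) : ℝ := ((1 : ℕ) : ℝ) / ((16 : ℕ) : ℝ)
theorem h147 (_h : In b E x1 x2) : Enc S E (t147 b) (v147 x1 x2) := enc_rat E 1 (by norm_num)

def t148 (b : Bx) : TM := tsub (t27 b) (t147 b)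
noncomputable def v148 (x1 x2 : ℝ) : ℝ := v27 x1 x2 - v147 x1 x2
theorem h148 (h : In b E x1 x2) : Enc S E (t148 b) (v148 x1 x2) := enc_sub (h27 h) (h147 h)

def t149 (b : Bx) : TM := tsub (t20 b) (t147 b)
noncomputable def v149 (x1 x2 : ℝ) : ℝ := v20 x1 x2 - v147 x1 x2
theorem h149 (h : In b E x1 x2) : Enc S E (t149 b) (v149 x1 x2) := enc_sub (h20 h) (h147 h)

def t150 (b : Bx) : TM := tsub (t0 b) (t24 b)
noncomputable def v150 (x1 x2 : ℝ) : ℝ := v0 x1 x2 - v24 x1 x2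
theorem h150 (h : In b E x1 x2) : Enc S E (t150 b) (v150 x1 x2) := enc_sub (h0 h) (h24 h)

def t151 (b : Bx) : TM := tsub (t5 b) (t51 b)
noncomputable def v151 (x1 x2 : ℝ) : ℝ := v5 x1 x2 - v51 x1 x2
theorem h151 (h : In b E x1 x2) : Enc S E (t151 b) (v151 x1 x2) := enc_sub (h5 h) (h51 h)

def t152 (b : Bx) : TM := tadd (t86 b) (t9 b)
noncomputable def v152 (x1 x2 : ℝ) : ℝ := v86 x1 x2 + v9 x1 x2
theorem h152 (h : In b E x1 x2) : Enc S E (t152 b) (v152 x1 x2) := enc_add (h86 h) (h9 h)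

def t153 (b : Bx) : TM := tneg (t152 b)
noncomputable def v153 (x1 x2 : ℝ) : ℝ := -(v152 x1 x2)
theorem h153 (h : In b E x1 x2) : Enc S E (t153 b) (v153 x1 x2) := enc_neg (h152 h)

def g0 (b : Bx) : Bool := and (pos (t71 b)) (and (pos (t23 b)) (and (pos (t63 b)) (and (pos (t75 b)) (and (pos (t76 b)) (and (pos (t45 b)) (and (pos (t113 b)) (and (pos (t35 b)) (or (pos (t20 b)) (pos (t138 b))))))))))

def l0 (b : Bx) : Nat := cond (g0 b) 0 (pickb 1 (t138 b) b)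

def P0 (x1 x2 : ℝ) : Prop := 0 < v71 x1 x2 ∧ 0 < v23 x1 x2 ∧ 0 < v63 x1 x2 ∧ 0 < v75 x1 x2 ∧ 0 < v76 x1 x2 ∧ 0 < v45 x1 x2 ∧ 0 < v113 x1 x2 ∧ 0 < v35 x1 x2 ∧ (0 < v20 x1 x2 ∨ 0 < v138 x1 x2)

theorem l0_sound (h : In b E x1 x2) (e : l0 b = 0) : P0 x1 x2 := by
  have e1 : g0 b = true := by
    rcases e2 : g0 b with _ | _
    · unfold l0 at e; rw [e2, cond_false] at e; exact absurd e (pickb_ne _ _ _)
    · rfl
  exact ⟨pos_sound hS (h71 h) (Bool.and_eq_true_iff.mp e1).1, ⟨pos_sound hS (h23 h) (Bool.and_eq_true_iff.mp (Bool.and_eq_true_iff.mp e1).2).1, ⟨pos_sound hS (h63 h) (Bool.and_eq_true_iff.mp (Bool.and_eq_true_iff.mp (Bool.and_eq_true_iff.mp e1).2).2).1, ⟨pos_sound hS (h75 h) (Bool.and_eq_true_iff.mp (Bool.and_eq_true_iff.mp (Bool.and_eq_true_iff.mp (Bool.and_eq_true_iff.mp e1).2).2).2).1, ⟨pos_sound hS (h76 h) (Bool.and_eq_true_iff.mp (Bool.and_eq_true_iff.mp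 (Bool.and_eq_true_iff.mp (Bool.and_eq_true_iff.mp (Bool.and_eq_true_iff.mp e1).2).2).2).2).1, ⟨pos_sound hS (h45 h) (Bool.and_eq_true_iff.mp (Bool.and_eq_true_iff.mp (Bool.and_eq_true_iff.mp (Bool.and_eq_true_iff.mp (Bool.and_eq_true_iff.mp (Bool.and_eq_true_iff.mp e1).2).2).2).2).2).1, ⟨pos_sound hS (h113 h) (Bool.and_eq_true_iff.mp (Bool.and_eq_true_iff.mp (Bool.and_eq_true_iff.mp (Bool.and_eq_true_iff.mp (Bool.and_eq_true_iff.mp (Bool.and_eq_true_iff.mp (Bool.and_eq_true_iff.mp e1).2).2).2).2).2).2).1, ⟨pos_sound hS (h35 h) (Bool.and_eq_true_iff.mp (Bool.and_eq_true_iff.mp (Bool.and_eq_true_iff.mp (Bool.and_eq_true_iff.mp (Bool.and_eq_true_iff.mp (Bool.and_eq_true_iff.mp (Bool.and_eq_true_iff.mp (Bool.and_eq_true_iff.mp e1).2).2).2).2).2).2).2).1, ((Bool.or_eq_true_iff.mp (Bool.and_eq_true_iff.mp (Bool.and_eq_true_iff.mp (Bool.and_eq_true_iff.mp (Bool.and_eq_true_iff.mp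 (Bool.and_eq_true_iff.mp (Bool.and_eq_true_iff.mp (Bool.and_eq_true_iff.mp (Bool.and_eq_true_iff.mp e1).2).2).2).2).2).2).2).2).imp (fun a => pos_sound hS (h20 h) a) (fun a => pos_sound hS (h138 h) a))⟩⟩⟩⟩⟩⟩⟩⟩

def g1 (b : Bx) : Bool := or (pos (t141 b)) (or (pos (t96 b)) (or (pos (t135 b)) (or (pos (t144 b)) (or (pos (t146 b)) (or (pos (t148 b)) (or (pos (t149 b)) (or (pos (t150 b)) (or (pos (t151 b)) (pos (t153 b))))))))))

def l1 (b : Bx) : Nat := cond (g1 b) 0 (l0 b)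

def P1 (x1 x2 : ℝ) : Prop := (0 < v141 x1 x2 ∨ 0 < v96 x1 x2 ∨ 0 < v135 x1 x2 ∨ 0 < v144 x1 x2 ∨ 0 < v146 x1 x2 ∨ 0 < v148 x1 x2 ∨ 0 < v149 x1 x2 ∨ 0 < v150 x1 x2 ∨ 0 < v151 x1 x2 ∨ 0 < v153 x1 x2) ∨ (P0 x1 x2)

theorem l1_sound (h : In b E x1 x2) (e : l1 b = 0) : P1 x1 x2 := by
  unfold l1 at e
  rcases e1 : g1 b with _ | _
  · rw [e1, cond_false] at e
    have z0 : l0 b = 0 := e
    exact Or.inr (l0_sound h z0)
  · exact Or.inl (((Bool.or_eq_true_iff.mp e1).imp (fun a => pos_sound hS (h141 h) a) (fun a => ((Bool.or_eq_true_iff.mp a).imp (fun a => pos_sound hS (h96 h) a) (fun a => ((Bool.or_eq_true_iff.mp a).imp (fun a => pos_sound hS (h135 h) a) (fun a => ((Bool.or_eq_true_iff.mp a).imp (fun a => pos_sound hS (h144 h) a) (fun a => ((Bool.or_eq_true_iff.mp a).imp (fun a => pos_sound hS (h146 h) a) (fun a => ((Bool.or_eq_true_iff.mp a).imp (fun a => pos_sound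 hS (h148 h) a) (fun a => ((Bool.or_eq_true_iff.mp a).imp (fun a => pos_sound hS (h149 h) a) (fun a => ((Bool.or_eq_true_iff.mp a).imp (fun a => pos_sound hS (h150 h) a) (fun a => ((Bool.or_eq_true_iff.mp a).imp (fun a => pos_sound hS (h151 h) a) (fun a => pos_sound hS (h153 h) a)))))))))))))))))))

def f (b : Bx) : Nat := l1 b

/-- the statement -/
def Q (x1 x2 : ℝ) : Prop := P1 x1 x2

theorem f_sound (b : Bx) (hb : f b = 0) (x1 x2 : ℝ) (hm : Mem S b x1 x2) : Q x1 x2 := by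
  obtain ⟨E, h⟩ := pt_of_mem hm
  have h : In b E x1 x2 := h
  unfold f at hb
  have e := hb
  have z1 : l1 b = 0 := e
  exact (l1_sound h z1)

/-- the box -/
def b0 : Bx := ⟨697415773, 0, 232471926, 615093004, 0, 615093005⟩

theorem chk_all {n : ℕ} {b : Bx} (h : chk f n b = true) (x1 x2 : ℝ) (hm : Mem S b x1 x2) : Q x1 x2 :=
  chk_sound (fun b hb x1 x2 hm => f_sound b hb x1 x2 hm) n b h x1 x2 hm


end Pool.Agent.Strip051.LB.ChB03V1_pp_123
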