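import Pool.Agent.Strip051.LB.ChB03V1_pp_123.Defs
import Pool.Agent.Strip051.LB.Slope
import Pool.Agent.Strip051.LB.Star
import Pool.Agent.Strip051.LB.Cf

/-! # LINE tight chart ChB03V1_pp_123: slopes -/

namespace Pool.Agent.Strip051.LB.ChB03V1_pp_123

open Pool.Agent.Strip051.LB Pool.Agent.Strip051.LB.Fn Pool.Agent.Strip051.LB.Fc Pool.Agent.StripNear

set_option maxRecDepth 100000
set_option linter.all false

noncomputable def v38 (x1 x2 : ℝ) : ℝ := v2 x1 x2 * v1 x1 x2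

noncomputable def v39 (x1 x2 : ℝ) : ℝ := v38 x1 x2 - v24 x1 x2

noncomputable def v43 (x1 x2 : ℝ) : ℝ := v39 x1 x2 * v42 x1 x2

noncomputable def v47 (x1 x2 : ℝ) : ℝ := v43 x1 x2 * v46 x1 x2

noncomputable def v48 (x1 x2 : ℝ) : ℝ := -(v47 x1 x2)

noncomputable def v52 (x1 x2 : ℝ) : ℝ := v51 x1 x2 - v5 x1 x2

noncomputable def v56 (x1 x2 : ℝ) : ℝ := (v55 x1 x2) ^ 2

noncomputable def v58 (x1 x2 : ℝ) : ℝ := -(v57 x1 x2)

noncomputable def v59 (x1 x2 : ℝ) : ℝ := (v18 x1 x2) ^ 2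

noncomputable def v61 (x1 x2 : ℝ) : ℝ := -(v60 x1 x2)

noncomputable def v62 (x1 x2 : ℝ) : ℝ := v22 x1 x2 - v59 x1 x2

noncomputable def v67 (x1 x2 : ℝ) : ℝ := (v66 x1 x2) ^ 2

noncomputable def v70 (x1 x2 : ℝ) : ℝ := v56 x1 x2 + v67 x1 x2

noncomputable def v72 (x1 x2 : ℝ) : ℝ := v70 x1 x2 - v5 x1 x2

noncomputable def v77 (x1 x2 : ℝ) : ℝ := v52 x1 x2 * v73 x1 x2

noncomputable def v78 (x1 x2 : ℝ) : ℝ := v25 x1 x2 + v77 x1 x2

noncomputable def v87 (x1 x2 : ℝ) : ℝ := v7 x1 x2 * v19 x1 x2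

noncomputable def v89 (x1 x2 : ℝ) : ℝ := v18 x1 x2 * v0 x1 x2

noncomputable def v90 (x1 x2 : ℝ) : ℝ := -(v0 x1 x2)

noncomputable def v91 (x1 x2 : ℝ) : ℝ := v87 x1 x2 - v89 x1 x2

noncomputable def v93 (x1 x2 : ℝ) : ℝ := v91 x1 x2 * v84 x1 x2

noncomputable def v95 (x1 x2 : ℝ) : ℝ := v93 x1 x2 - v9 x1 x2

noncomputable def v118 (x1 x2 : ℝ) : ℝ := -(v117 x1 x2)

noncomputable def v119 (x1 x2 : ℝ) : ℝ := v108 x1 x2 * v115 x1 x2

noncomputable def v123 (x1 x2 : ℝ) : ℝ := v120 x1 x2 - v121 x1 x2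

noncomputable def v124 (x1 x2 : ℝ) : ℝ := -(v119 x1 x2)

noncomputable def v127 (x1 x2 : ℝ) : ℝ := v19 x1 x2 - v2 x1 x2

noncomputable def v154 (x1 x2 : ℝ) : ℝ := v66 x1 x2 - v3 x1 x2

structure Cx (x1 x2 : ℝ) : Prop where
  hc : v7 x1 x2 ^ 2 + x1 ^ 2 = 1
  p23 : 0 < v23 x1 x2
  p63 : 0 < v63 x1 x2
  p75 : 0 < v75 x1 x2
  p76 : 0 < v76 x1 x2
  p45 : 0 < v45 x1 x2
  p113 : 0 < v113 x1 x2
  p35 : 0 < v35 x1 x2

variable {x1 x2 : ℝ}

theorem s3q (x1 x2 : ℝ) : v2 x1 x2 ^ 2 = 3 := by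
  rw [v2]; exact s3sq

theorem s3ne (x1 x2 : ℝ) : v2 x1 x2 ≠ 0 := by
  rw [v2]; positivity

theorem s1 (c : Cx x1 x2) : v1 x1 x2 = v18 x1 x2 + v27 x1 x2 * v53 x1 x2 := by
  simp only [v1, v5, v27, v53]
  (try push_cast)
  first | ring | grind

theorem s21 (c : Cx x1 x2) : v21 x1 x2 = v59 x1 x2 + v27 x1 x2 * v61 x1 x2 := by
  have a0 : (v1 x1 x2 + v18 x1 x2) * v1 x1 x2 = (v1 x1 x2 + v18 x1 x2) * (v18 x1 x2 + v27 x1 x2 * v53 x1 x2) := congrArg (fun z => (v1 x1 x2 + v18 x1 x2) * z) (s1 c)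
  try simp only [v1, v5, v21, v27, v53, v59, v60, v61] at a0
  simp only [v1, v5, v21, v27, v53, v59, v60, v61]
  (try push_cast at a0 ⊢)
  first | linear_combination a0 | ring | grind

theorem s23 (c : Cx x1 x2) : v23 x1 x2 = v62 x1 x2 + v27 x1 x2 * v60 x1 x2 := by
  have a1 := s21 c
  try simp only [v1, v22, v23, v27, v60, v61, v62] at a1
  simp only [v1, v22, v23, v27, v60, v61, v62]
  (try push_cast at a1 ⊢)
  first | linear_combination -a1 | ring | grind

theorem q24 (c : Cx x1 x2) : v62 x1 x2 = v19 x1 x2 ^ 2 := by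
  have hc := c.hc
  have h3 := s3q x1 x2
  simp only [v0, v3, v10, v11, v13, v14, v16, v17, v18, v19, v22, v59, v62] at hc ⊢
  push_cast at hc ⊢
  grind

theorem s24 (c : Cx x1 x2) : v24 x1 x2 = v19 x1 x2 + v27 x1 x2 * v65 x1 x2 := by
  have a0 := s23 c
  have e : 0 < Real.sqrt (v23 x1 x2) + v19 x1 x2 := by
    have e := c.p63
    simp only [v22, v23, v24, v63] at e ⊢
    push_cast at e ⊢
    linarith
  have b := sl_sqrt a0 (q24 c) (le_of_lt c.p23) e
  clear a0
  try simp only [v1, v22, v23, v24, v27, v60, v62, v63, v64, v65] at b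
  simp only [v1, v22, v23, v24, v27, v60, v62, v63, v64, v65]
  (try push_cast at b ⊢)
  first | linear_combination b | ring | grind

theorem s25 (c : Cx x1 x2) : v25 x1 x2 = v55 x1 x2 + v27 x1 x2 * v53 x1 x2 := by
  have a0 := s1 c
  try simp only [v1, v5, v25, v27, v53, v55] at a0
  simp only [v1, v5, v25, v27, v53, v55]
  (try push_cast at a0 ⊢)
  first | linear_combination a0 | ring | grind

theorem s26 (c : Cx x1 x2) : v26 x1 x2 = v66 x1 x2 + v27 x1 x2 * v65 x1 x2 := by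
  have a0 := s24 c
  try simp only [v0, v1, v26, v27, v66] at a0
  simp only [v0, v1, v26, v27, v66]
  (try push_cast at a0 ⊢)
  first | linear_combination a0 | ring | grind

theorem s38 (c : Cx x1 x2) : v38 x1 x2 = v99 x1 x2 + v27 x1 x2 * v100 x1 x2 := by
  have a1 : (v2 x1 x2) * v1 x1 x2 = (v2 x1 x2) * (v18 x1 x2 + v27 x1 x2 * v53 x1 x2) := congrArg (fun z => (v2 x1 x2) * z) (s1 c)
  try simp only [v1, v2, v5, v27, v38, v53, v99, v100] at a1
  simp only [v1, v2, v5, v27, v38, v53, v99, v100]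
  (try push_cast at a1 ⊢)
  first | linear_combination a1 | ring | grind

theorem s39 (c : Cx x1 x2) : v39 x1 x2 = v101 x1 x2 + v27 x1 x2 * v102 x1 x2 := by
  have a0 := s38 c
  have a1 := s24 c
  try simp only [v1, v2, v27, v39, v100, v101, v102] at a0
  try simp only [v1, v2, v27, v39, v100, v101, v102] at a1
  simp only [v1, v2, v27, v39, v100, v101, v102]
  (try push_cast at a0 a1 ⊢)
  first | linear_combination a0 - a1 | ring | grind

theorem s40 (c : Cx x1 x2) : v40 x1 x2 = v103 x1 x2 + v27 x1 x2 * v53 x1 x2 := by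
  have a0 := s1 c
  try simp only [v1, v5, v22, v27, v40, v53, v103] at a0
  simp only [v1, v5, v22, v27, v40, v53, v103]
  (try push_cast at a0 ⊢)
  first | linear_combination a0 | ring | grind

theorem s41 (c : Cx x1 x2) : v41 x1 x2 = v104 x1 x2 + v27 x1 x2 * v105 x1 x2 := by
  have a1 : (v2 x1 x2) * v24 x1 x2 = (v2 x1 x2) * (v19 x1 x2 + v27 x1 x2 * v65 x1 x2) := congrArg (fun z => (v2 x1 x2) * z) (s24 c)
  try simp only [v1, v2, v27, v41, v104, v105] at a1
  simp only [v1, v2, v27, v41, v104, v105]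
  (try push_cast at a1 ⊢)
  first | linear_combination a1 | ring | grind

theorem s42 (c : Cx x1 x2) : v42 x1 x2 = v106 x1 x2 + v27 x1 x2 * v107 x1 x2 := by
  have a0 := s40 c
  have a1 := s41 c
  try simp only [v1, v5, v22, v27, v40, v42, v53, v103, v106, v107] at a0
  try simp only [v1, v5, v22, v27, v40, v42, v53, v103, v106, v107] at a1
  simp only [v1, v5, v22, v27, v40, v42, v53, v103, v106, v107]
  (try push_cast at a0 a1 ⊢)
  first | linear_combination a0 - a1 | ring | grind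

theorem s43 (c : Cx x1 x2) : v43 x1 x2 = v108 x1 x2 + v27 x1 x2 * v111 x1 x2 := by
  have a0 : (v42 x1 x2) * v39 x1 x2 = (v42 x1 x2) * (v101 x1 x2 + v27 x1 x2 * v102 x1 x2) := congrArg (fun z => (v42 x1 x2) * z) (s39 c)
  have a1 : (v101 x1 x2) * v42 x1 x2 = (v101 x1 x2) * (v106 x1 x2 + v27 x1 x2 * v107 x1 x2) := congrArg (fun z => (v101 x1 x2) * z) (s42 c)
  try simp only [v1, v2, v5, v22, v27, v39, v40, v42, v43, v53, v100, v101, v102, v103, v106, v107, v108, v109, v110, v111] at a0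
  try simp only [v1, v2, v5, v22, v27, v39, v40, v42, v43, v53, v100, v101, v102, v103, v106, v107, v108, v109, v110, v111] at a1
  simp only [v1, v2, v5, v22, v27, v39, v40, v42, v43, v53, v100, v101, v102, v103, v106, v107, v108, v109, v110, v111]
  (try push_cast at a0 a1 ⊢)
  first | linear_combination a0 + a1 | ring | grind

theorem s44 (c : Cx x1 x2) : v44 x1 x2 = v112 x1 x2 + v27 x1 x2 * v65 x1 x2 := by
  have a0 := s24 c
  try simp only [v1, v2, v3, v27, v44, v112] at a0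
  simp only [v1, v2, v3, v27, v44, v112]
  (try push_cast at a0 ⊢)
  first | linear_combination a0 | ring | grind

theorem s45 (c : Cx x1 x2) : v45 x1 x2 = v113 x1 x2 + v27 x1 x2 * v114 x1 x2 := by
  have a0 := s44 c
  try simp only [v1, v2, v3, v27, v44, v45, v112, v113, v114] at a0
  simp only [v1, v2, v3, v27, v44, v45, v112, v113, v114]
  (try push_cast at a0 ⊢)
  first | linear_combination (4 : ℝ) * a0 | ring | grind

theorem s46 (c : Cx x1 x2) : v46 x1 x2 = v115 x1 x2 + v27 x1 x2 * v118 x1 x2 := by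
  have a0 := s45 c
  have b := sl_inv a0 (c.p45).ne' (c.p113).ne'
  clear a0
  try simp only [v1, v2, v3, v27, v44, v45, v46, v112, v113, v114, v115, v116, v117, v118] at b
  simp only [v1, v2, v3, v27, v44, v45, v46, v112, v113, v114, v115, v116, v117, v118]
  (try push_cast at b ⊢)
  first | linear_combination b | ring | grind

theorem s47 (c : Cx x1 x2) : v47 x1 x2 = v119 x1 x2 + v27 x1 x2 * v123 x1 x2 := by
  have a0 : (v46 x1 x2) * v43 x1 x2 = (v46 x1 x2) * (v108 x1 x2 + v27 x1 x2 * v111 x1 x2) := congrArg (fun z => (v46 x1 x2) * z) (s43 c)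
  have a1 : (v108 x1 x2) * v46 x1 x2 = (v108 x1 x2) * (v115 x1 x2 + v27 x1 x2 * v118 x1 x2) := congrArg (fun z => (v108 x1 x2) * z) (s46 c)
  try simp only [v1, v27, v47, v111, v118, v119, v120, v121, v123] at a0
  try simp only [v1, v27, v47, v111, v118, v119, v120, v121, v123] at a1
  simp only [v1, v27, v47, v111, v118, v119, v120, v121, v123]
  (try push_cast at a0 a1 ⊢)
  first | linear_combination a0 + a1 | ring | grind

theorem s48 (c : Cx x1 x2) : v48 x1 x2 = v124 x1 x2 + v27 x1 x2 * v125 x1 x2 := by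
  have a0 := s47 c
  try simp only [v1, v27, v48, v123, v124, v125] at a0
  simp only [v1, v27, v48, v123, v124, v125]
  (try push_cast at a0 ⊢)
  first | linear_combination -a0 | ring | grind

theorem s49 (c : Cx x1 x2) : v49 x1 x2 = v56 x1 x2 + v27 x1 x2 * v58 x1 x2 := by
  have a0 : (v25 x1 x2 + v55 x1 x2) * v25 x1 x2 = (v25 x1 x2 + v55 x1 x2) * (v55 x1 x2 + v27 x1 x2 * v53 x1 x2) := congrArg (fun z => (v25 x1 x2 + v55 x1 x2) * z) (s25 c)
  try simp only [v1, v5, v25, v27, v49, v53, v55, v56, v57, v58] at a0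
  simp only [v1, v5, v25, v27, v49, v53, v55, v56, v57, v58]
  (try push_cast at a0 ⊢)
  first | linear_combination a0 | ring | grind

theorem s50 (c : Cx x1 x2) : v50 x1 x2 = v67 x1 x2 + v27 x1 x2 * v69 x1 x2 := by
  have a0 : (v26 x1 x2 + v66 x1 x2) * v26 x1 x2 = (v26 x1 x2 + v66 x1 x2) * (v66 x1 x2 + v27 x1 x2 * v65 x1 x2) := congrArg (fun z => (v26 x1 x2 + v66 x1 x2) * z) (s26 c)
  try simp only [v0, v1, v26, v27, v50, v66, v67, v68, v69] at a0
  simp only [v0, v1, v26, v27, v50, v66, v67, v68, v69]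
  (try push_cast at a0 ⊢)
  first | linear_combination a0 | ring | grind

theorem s51 (c : Cx x1 x2) : v51 x1 x2 = v70 x1 x2 + v27 x1 x2 * v71 x1 x2 := by
  have a0 := s49 c
  have a1 := s50 c
  try simp only [v1, v25, v27, v51, v55, v57, v58, v70, v71] at a0
  try simp only [v1, v25, v27, v51, v55, v57, v58, v70, v71] at a1
  simp only [v1, v25, v27, v51, v55, v57, v58, v70, v71]
  (try push_cast at a0 a1 ⊢)
  first | linear_combination a0 + a1 | ring | grind

theorem s52 (c : Cx x1 x2) : v52 x1 x2 = v72 x1 x2 + v27 x1 x2 * v71 x1 x2 := by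
  have a0 := s51 c
  try simp only [v1, v5, v25, v27, v51, v52, v55, v57, v70, v71, v72] at a0
  simp only [v1, v5, v25, v27, v51, v52, v55, v57, v70, v71, v72]
  (try push_cast at a0 ⊢)
  first | linear_combination a0 | ring | grind

theorem s81 (c : Cx x1 x2) : v81 x1 x2 = v87 x1 x2 + v27 x1 x2 * v88 x1 x2 := by
  have a1 : (v7 x1 x2) * v24 x1 x2 = (v7 x1 x2) * (v19 x1 x2 + v27 x1 x2 * v65 x1 x2) := congrArg (fun z => (v7 x1 x2) * z) (s24 c)
  try simp only [v1, v27, v81, v87, v88] at a1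
  simp only [v1, v27, v81, v87, v88]
  (try push_cast at a1 ⊢)
  first | linear_combination a1 | ring | grind

theorem s82 (c : Cx x1 x2) : v82 x1 x2 = v89 x1 x2 + v27 x1 x2 * v90 x1 x2 := by
  have a0 : (v0 x1 x2) * v1 x1 x2 = (v0 x1 x2) * (v18 x1 x2 + v27 x1 x2 * v53 x1 x2) := congrArg (fun z => (v0 x1 x2) * z) (s1 c)
  try simp only [v0, v1, v5, v27, v53, v82, v89, v90] at a0
  simp only [v0, v1, v5, v27, v53, v82, v89, v90]
  (try push_cast at a0 ⊢)
  first | linear_combination a0 | ring | grind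

theorem s83 (c : Cx x1 x2) : v83 x1 x2 = v91 x1 x2 + v27 x1 x2 * v92 x1 x2 := by
  have a0 := s81 c
  have a1 := s82 c
  try simp only [v0, v1, v27, v83, v90, v91, v92] at a0
  try simp only [v0, v1, v27, v83, v90, v91, v92] at a1
  simp only [v0, v1, v27, v83, v90, v91, v92]
  (try push_cast at a0 a1 ⊢)
  first | linear_combination a0 - a1 | ring | grind

theorem s85 (c : Cx x1 x2) : v85 x1 x2 = v93 x1 x2 + v27 x1 x2 * v94 x1 x2 := by
  have a0 : (v84 x1 x2) * v83 x1 x2 = (v84 x1 x2) * (v91 x1 x2 + v27 x1 x2 * v92 x1 x2) := congrArg (fun z => (v84 x1 x2) * z) (s83 c)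
  try simp only [v0, v1, v27, v83, v85, v91, v92, v93, v94] at a0
  simp only [v0, v1, v27, v83, v85, v91, v92, v93, v94]
  (try push_cast at a0 ⊢)
  first | linear_combination a0 | ring | grind

theorem s86 (c : Cx x1 x2) : v86 x1 x2 = v95 x1 x2 + v27 x1 x2 * v94 x1 x2 := by
  have a0 := s85 c
  try simp only [v1, v9, v27, v86, v95] at a0
  simp only [v1, v9, v27, v86, v95]
  (try push_cast at a0 ⊢)
  first | linear_combination a0 | ring | grind

theorem s97 (c : Cx x1 x2) : v97 x1 x2 = v154 x1 x2 + v27 x1 x2 * v65 x1 x2 := by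
  have a0 := s26 c
  try simp only [v0, v1, v2, v3, v26, v27, v66, v97, v154] at a0
  simp only [v0, v1, v2, v3, v26, v27, v66, v97, v154]
  (try push_cast at a0 ⊢)
  first | linear_combination a0 | ring | grind

theorem s98 (c : Cx x1 x2) : v98 x1 x2 = v127 x1 x2 + v27 x1 x2 * v65 x1 x2 := by
  have a0 := s24 c
  try simp only [v1, v2, v27, v98, v127] at a0
  simp only [v1, v2, v27, v98, v127]
  (try push_cast at a0 ⊢)
  first | linear_combination a0 | ring | grind

theorem bD (c : Cx x1 x2) : v72 x1 x2 = 0 := by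
  have hc := c.hc
  have h3 := s3q x1 x2
  simp only [v0, v3, v5, v10, v11, v13, v14, v16, v17, v18, v19, v55, v56, v66, v67, v70, v72] at hc ⊢
  push_cast at hc ⊢
  grind

theorem sD (c : Cx x1 x2) : v52 x1 x2 = v27 x1 x2 * v71 x1 x2 := by
  have h := s52 c
  rw [bD c, zero_add] at h
  exact h

theorem s78 (c : Cx x1 x2) : v78 x1 x2 = v55 x1 x2 + v27 x1 x2 * v80 x1 x2 := by
  have hA := s25 c
  have hd := sD c
  have hK : v73 x1 x2 * v52 x1 x2 = v73 x1 x2 * (v27 x1 x2 * v71 x1 x2) := congrArg (fun z => v73 x1 x2 * z) hd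
  try simp only [v1, v5, v25, v27, v51, v52, v53, v55, v57, v71, v77, v78, v79, v80] at hA
  try simp only [v1, v5, v25, v27, v51, v52, v53, v55, v57, v71, v77, v78, v79, v80] at hK
  simp only [v1, v5, v25, v27, v51, v52, v53, v55, v57, v71, v77, v78, v79, v80]
  (try push_cast at hA hK ⊢)
  first | linear_combination (hA + hK) | grind

theorem bE (c : Cx x1 x2) : v95 x1 x2 = 0 := by
  have hc := c.hc
  have h3 := s3q x1 x2
  have g0 : v2 x1 x2 ≠ 0 := s3ne x1 x2
  simp only [v0, v3, v9, v10, v11, v13, v14, v16, v17, v18, v19, v84, v87, v89, v91, v93, v95] at hc ⊢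
  push_cast at hc ⊢
  grind

theorem hE (c : Cx x1 x2) : v86 x1 x2 = v27 x1 x2 * v94 x1 x2 := by
  have h := s86 c
  rw [bE c, zero_add] at h
  exact h

theorem bS (c : Cx x1 x2) : v124 x1 x2 - v37 x1 x2 - v55 x1 x2 = 0 := by
  have hc := c.hc
  have h3 := s3q x1 x2
  have g0 := (c.p35).ne'
  have g1 := (c.p113).ne'
  simp only [v0, v3, v5, v10, v11, v13, v14, v16, v17, v18, v19, v22, v28, v29, v30, v31, v32, v33, v34, v35, v36, v37, v55, v99, v101, v103, v104, v106, v108, v112, v113, v115, v119, v124] at hc g0 g1 ⊢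
  push_cast at hc g0 g1 ⊢
  grind

theorem hS (c : Cx x1 x2) : v48 x1 x2 - v37 x1 x2 - v78 x1 x2 = v27 x1 x2 * v126 x1 x2 := by
  have a3 := s48 c
  have a2 := s78 c
  have b := bS c
  try simp only [v1, v5, v25, v27, v48, v55, v78, v80, v124, v125, v126] at a3
  try simp only [v1, v5, v25, v27, v48, v55, v78, v80, v124, v125, v126] at a2
  try simp only [v1, v5, v25, v27, v48, v55, v78, v80, v124, v125, v126] at b
  try simp only [v1, v5, v25, v27, v48, v55, v78, v80, v124, v125, v126]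
  (try push_cast at a3 a2 b ⊢)
  first | linear_combination a3 - a2 + b | grind

theorem bC (c : Cx x1 x2) : v96 x1 x2 * v124 x1 x2 - v127 x1 x2 * v37 x1 x2 = 0 := by
  have hc := c.hc
  have h3 := s3q x1 x2
  have g0 := (c.p35).ne'
  have g1 := (c.p113).ne'
  simp only [v0, v3, v5, v10, v11, v13, v14, v16, v17, v18, v19, v22, v28, v29, v30, v31, v32, v33, v34, v35, v36, v37, v96, v99, v101, v103, v104, v106, v108, v112, v113, v115, v119, v124, v127] at hc g0 g1 ⊢
  push_cast at hc g0 g1 ⊢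
  grind

theorem hC (c : Cx x1 x2) : v96 x1 x2 * v48 x1 x2 - v98 x1 x2 * v37 x1 x2 = v27 x1 x2 * v130 x1 x2 := by
  have a2 : v96 x1 x2 * v48 x1 x2 = v96 x1 x2 * (v124 x1 x2 + v27 x1 x2 * v125 x1 x2) := congrArg (fun z => v96 x1 x2 * z) (s48 c)
  have a3 : v37 x1 x2 * v98 x1 x2 = v37 x1 x2 * (v127 x1 x2 + v27 x1 x2 * v65 x1 x2) := congrArg (fun z => v37 x1 x2 * z) (s98 c)
  have b := bC c
  try simp only [v0, v1, v2, v3, v27, v48, v96, v98, v124, v125, v127, v128, v129, v130] at a2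
  try simp only [v0, v1, v2, v3, v27, v48, v96, v98, v124, v125, v127, v128, v129, v130] at a3
  try simp only [v0, v1, v2, v3, v27, v48, v96, v98, v124, v125, v127, v128, v129, v130] at b
  simp only [v0, v1, v2, v3, v27, v48, v96, v98, v124, v125, v127, v128, v129, v130]
  (try push_cast at a2 a3 b ⊢)
  first | linear_combination a2 - a3 + b | grind

theorem hT (x1 x2 : ℝ) : v98 x1 x2 = v96 x1 x2 + v97 x1 x2 := by
  simp only [v0, v2, v3, v26, v96, v97, v98]
  push_cast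
  ring

theorem hG (c : Cx x1 x2) : (-v98 x1 x2) * (-v78 x1 x2) - v97 x1 x2 * v48 x1 x2 = v27 x1 x2 * v134 x1 x2 := by
  have b := hC c
  have m0 : v98 x1 x2 * (v48 x1 x2 - v37 x1 x2 - v78 x1 x2) = v98 x1 x2 * (v27 x1 x2 * v126 x1 x2) := congrArg (fun z => v98 x1 x2 * z) (hS c)
  have m1 : v48 x1 x2 * v98 x1 x2 = v48 x1 x2 * (v96 x1 x2 + v97 x1 x2) := congrArg (fun z => v48 x1 x2 * z) (hT x1 x2)
  try simp only [v0, v1, v2, v3, v5, v25, v26, v27, v48, v78, v80, v96, v97, v98, v125, v126, v130, v133, v134] at b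
  try simp only [v0, v1, v2, v3, v5, v25, v26, v27, v48, v78, v80, v96, v97, v98, v125, v126, v130, v133, v134] at m0
  try simp only [v0, v1, v2, v3, v5, v25, v26, v27, v48, v78, v80, v96, v97, v98, v125, v126, v130, v133, v134] at m1
  try simp only [v0, v1, v2, v3, v5, v25, v26, v27, v48, v78, v80, v96, v97, v98, v125, v126, v130, v133, v134]
  (try push_cast at b m0 m1 ⊢)
  first | linear_combination b - m0 + m1 | grind

theorem core (c : Cx x1 x2) (hW : 0 ≤ v27 x1 x2) (hWQ : 0 ≤ v27 x1 x2 * v138 x1 x2) (h1 : 0 ≤ v97 x1 x2) (h2 : 0 ≤ (-v98 x1 x2)) (h3 : v97 x1 x2 + (-v98 x1 x2) ≤ Pool.Agent.StripNear.h0) :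
    0 ≤ starn_v (v86 x1 x2) (v97 x1 x2) ((-v98 x1 x2)) ((-v78 x1 x2)) (v48 x1 x2) (v37 x1 x2) := by
  have hD : (-v78 x1 x2) + v48 x1 x2 - v37 x1 x2 = v27 x1 x2 * v126 x1 x2 := by
    have b := hS c
    linear_combination b
  have k := starn_ge hW h1 h2 h3 (hE c) hD (hG c)
  have f1 : (-v98 x1 x2) = v137 x1 x2 := by
    simp only [v0, v2, v3, v26, v97, v98, v137]
    try (push_cast; ring)
  refine le_trans hWQ (le_trans (le_of_eq ?_) k)
  rw [v138]
  rw [f1]

end Pool.Agent.Strip051.LB.ChB03V1_pp_123
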